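import Pool.Agent.W792.WA.Stm5
import Pool.Agent.W792.WA.Stm6
import Pool.Agent.W174.WA.KA

/-!
# EQD: equidistribution of `M lap / 2π` on the circle
-/

set_option autoImplicit false

namespace Pool.Agent.N618.NP.EQD

open MeasureTheory Filter Set
open Pool.Agent.W792.WA Pool.Agent.W792.LL
open scoped Topology

theorem vol_eq : (volume : Measure UnitAddCircle) = AddCircle.haarAddCircle := by
  rw [AddCircle.volume_eq_smul_haarAddCircle, ENNReal.ofReal_one, one_smul]

instance : IsProbabilityMeasure (volume : Measure UnitAddCircle) := by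
  rw [vol_eq]
  infer_instance

/-- the argument of the function -/
noncomputable def arg (d M : ℕ) (k : UnitAddTorus (Fin d)) : UnitAddCircle :=
  ((M * lap d k / (2 * Real.pi) : ℝ) : UnitAddCircle)

theorem arg_cont (d M : ℕ) : Continuous (arg d M) := by
  unfold arg
  refine (AddCircle.continuous_mk' 1).comp ?_
  exact (continuous_const.mul (lap d).continuous).div_const _

/-- the average of `g` -/
noncomputable def AA (d M : ℕ) (g : C(UnitAddCircle, ℂ)) : ℂ :=
  ∫ k : UnitAddTorus (Fin d), g (arg d M k)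

/-- the mean of `g` -/
noncomputable def JJ (g : C(UnitAddCircle, ℂ)) : ℂ := ∫ φ : UnitAddCircle, g φ

theorem A_int (d M : ℕ) (g : C(UnitAddCircle, ℂ)) :
    Integrable (fun k : UnitAddTorus (Fin d) => g (arg d M k)) := by
  refine Integrable.of_bound (C := ‖g‖) ?_ ?_
  · exact (g.continuous.comp (arg_cont d M)).aestronglyMeasurable
  · exact Filter.Eventually.of_forall fun k => g.norm_coe_le_norm _

theorem J_int (g : C(UnitAddCircle, ℂ)) : Integrable (fun k : UnitAddCircle => g k) := by
  refine Integrable.of_bound (C := ‖g‖) g.continuous.aestronglyMeasurable ?_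
  exact Filter.Eventually.of_forall fun k => g.norm_coe_le_norm _

theorem A_add (d M : ℕ) (g g' : C(UnitAddCircle, ℂ)) : AA d M (g + g') = AA d M g + AA d M g' := by
  unfold AA
  rw [← integral_add (A_int d M g) (A_int d M g')]
  rfl

theorem A_smul (d M : ℕ) (c : ℂ) (g : C(UnitAddCircle, ℂ)) : AA d M (c • g) = c * AA d M g := by
  unfold AA
  rw [← integral_const_mul]
  rfl

theorem J_add (g g' : C(UnitAddCircle, ℂ)) : JJ (g + g') = JJ g + JJ g' := by
  unfold JJ
  rw [← integral_add (J_int g) (J_int g')]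
  rfl

theorem J_smul (c : ℂ) (g : C(UnitAddCircle, ℂ)) : JJ (c • g) = c * JJ g := by
  unfold JJ
  rw [← integral_const_mul]
  rfl

theorem A_near (d M : ℕ) (g g' : C(UnitAddCircle, ℂ)) : ‖AA d M g - AA d M g'‖ ≤ ‖g - g'‖ := by
  unfold AA
  rw [← integral_sub (A_int d M g) (A_int d M g')]
  refine (norm_integral_le_of_norm_le_const (C := ‖g - g'‖)
    (Eventually.of_forall fun k => ?_)).trans ?_
  · exact (g - g').norm_coe_le_norm _
  · simp

theorem J_near (g g' : C(UnitAddCircle, ℂ)) : ‖JJ g - JJ g'‖ ≤ ‖g - g'‖ := by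
  unfold JJ
  rw [← integral_sub (J_int g) (J_int g')]
  refine (norm_integral_le_of_norm_le_const (C := ‖g - g'‖)
    (Eventually.of_forall fun k => ?_)).trans ?_
  · exact (g - g').norm_coe_le_norm _
  · simp

/-- the value at the functions `exp (2 π i n x)` -/
theorem A_fourier (d M : ℕ) (n : ℤ) : AA d M (fourier n) = (k1 (n * M) 0) ^ d := by
  unfold AA k1
  have h1 : ∀ k : UnitAddTorus (Fin d), fourier n (arg d M k) =
      ∏ i : Fin d, (fourier 0 (k i) * Complex.exp (Complex.I * ((n * M : ℝ) : ℂ) *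
        ((2 - 2 * (fourier 1 (k i)).re : ℝ) : ℂ))) := by
    intro k
    unfold arg
    rw [fourier_coe_apply, Finset.prod_mul_distrib, ← Complex.exp_sum, ← Finset.mul_sum,
      ← Complex.ofReal_sum]
    have h2 : lap d k = ∑ i, (2 - 2 * (fourier 1 (k i)).re) := rfl
    rw [← h2]
    simp only [fourier_zero, Finset.prod_const_one, one_mul]
    congr 1
    have hpi : (Real.pi : ℂ) ≠ 0 := by exact_mod_cast Real.pi_ne_zero
    push_cast
    field_simp
  rw [integral_congr_ae (Eventually.of_forall h1),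
    integral_fintype_prod_volume_eq_prod (ι := Fin d) (E := fun _ => UnitAddCircle)
      (fun _ θ => fourier 0 θ * Complex.exp (Complex.I * ((n * M : ℝ) : ℂ) *
        ((2 - 2 * (fourier 1 θ).re : ℝ) : ℂ))), Finset.prod_const, Finset.card_univ,
    Fintype.card_fin, vol_eq]

theorem J_fourier (n : ℤ) : JJ (fourier n) = if n = 0 then 1 else 0 := by
  unfold JJ
  rw [vol_eq]
  split_ifs with h
  · subst h
    simp
  · exact integral_eq_zero_of_add_right_eq_neg (μ := AddCircle.haarAddCircle)
      (fourier_add_half_inv_index h one_pos)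

theorem k1_zero : k1 0 0 = 1 := by
  unfold k1
  simp

theorem conv_fourier {d : ℕ} (hd : 0 < d) (n : ℤ) :
    Tendsto (fun M : ℕ => AA d M (fourier n)) atTop (𝓝 (JJ (fourier n))) := by
  rw [J_fourier]
  simp only [A_fourier]
  split_ifs with h
  · subst h
    simp [k1_zero]
  · obtain ⟨C, hC, hk⟩ := Pool.Agent.W174.WA.KA.main
    have h1 : Tendsto (fun M : ℕ => k1 (n * M) 0) atTop (𝓝 0) := by
      rw [tendsto_zero_iff_norm_tendsto_zero]
      have h2 : Tendsto (fun M : ℕ => C / (1 + |(n * M : ℝ)|) ^ (1 / 3 : ℝ)) atTop (𝓝 0) := by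
        refine tendsto_const_nhds.div_atTop ?_
        refine (tendsto_rpow_atTop (by norm_num)).comp ?_
        refine tendsto_atTop_mono (fun M : ℕ => ?_) (tendsto_natCast_atTop_atTop (R := ℝ))
        rw [abs_mul, Nat.abs_cast]
        have h3 : (1 : ℝ) ≤ |(n : ℝ)| := by
          rw [← Int.cast_abs]
          exact_mod_cast Int.one_le_abs h
        have h4 : (0 : ℝ) ≤ M := Nat.cast_nonneg M
        nlinarith
      exact squeeze_zero (fun _ => norm_nonneg _) (fun M => hk _ _) h2
    have h2 := h1.pow d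
    rwa [zero_pow hd.ne'] at h2

theorem conv_all {d : ℕ} (hd : 0 < d) (g : C(UnitAddCircle, ℂ)) :
    Tendsto (fun M : ℕ => AA d M g) atTop (𝓝 (JJ g)) := by
  have hspan : ∀ g ∈ Submodule.span ℂ (range <| @fourier 1),
      Tendsto (fun M : ℕ => AA d M g) atTop (𝓝 (JJ g)) := by
    intro g hg
    induction hg using Submodule.span_induction with
    | mem g hg =>
      obtain ⟨n, rfl⟩ := hg
      exact conv_fourier hd n
    | zero =>
      have e1 : ∀ M, AA d M 0 = 0 := fun M => by
        unfold AA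
        simp
      have e2 : JJ 0 = 0 := by
        unfold JJ
        simp
      simp only [e1, e2]
      exact tendsto_const_nhds
    | add g g' _ _ h h' =>
      simp only [A_add, J_add]
      exact h.add h'
    | smul c g _ h =>
      simp only [A_smul, J_smul]
      exact h.const_mul c
  have hcl : g ∈ (Submodule.span ℂ (range <| @fourier 1)).topologicalClosure := by
    rw [span_fourier_closure_eq_top]
    trivial
  have hcl' : g ∈ closure ((Submodule.span ℂ (range <| @fourier 1) :
    Submodule ℂ C(UnitAddCircle, ℂ)) : Set C(UnitAddCircle, ℂ)) := hcl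
  rw [Metric.tendsto_atTop]
  intro ε hε
  obtain ⟨g', hg', hgg⟩ := Metric.mem_closure_iff.1 hcl' (ε / 3) (by positivity)
  obtain ⟨M₀, hM₀⟩ := (Metric.tendsto_atTop.1 (hspan g' hg')) (ε / 3) (by positivity)
  refine ⟨M₀, fun M hM => ?_⟩
  have h1 := hM₀ M hM
  rw [dist_eq_norm] at h1 hgg ⊢
  have h2 := A_near d M g g'
  have h3 := J_near g' g
  rw [norm_sub_rev g' g] at h3
  have e : AA d M g - JJ g = (AA d M g - AA d M g') + (AA d M g' - JJ g') + (JJ g' - JJ g) := by
    ring
  rw [e]
  refine lt_of_le_of_lt (norm_add₃_le) ?_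
  linarith

theorem main : S_EQD := by
  intro d h hd e he
  let g : C(UnitAddCircle, ℂ) := ⟨fun x => ((h x : ℝ) : ℂ), by fun_prop⟩
  obtain ⟨M₀, hM₀⟩ := (Metric.tendsto_atTop.1 (conv_all hd g)) e he
  refine ⟨M₀, fun M hM => ?_⟩
  have h1 := (hM₀ M hM).le
  rw [dist_eq_norm] at h1
  have e1 : AA d M g = ((∫ k : UnitAddTorus (Fin d),
      h ((M * lap d k / (2 * Real.pi) : ℝ) : UnitAddCircle) : ℝ) : ℂ) := by
    unfold AA
    exact integral_ofReal
  have e2 : JJ g = ((∫ φ in Set.Ioc (0 : ℝ) 1, h (φ : UnitAddCircle) : ℝ) : ℂ) := by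
    have h2 := UnitAddCircle.integral_preimage 0 (fun x : UnitAddCircle => h x)
    rw [zero_add] at h2
    rw [h2]
    unfold JJ
    exact integral_ofReal
  rw [e1, e2, ← Complex.ofReal_sub, Complex.norm_real] at h1
  exact h1

end Pool.Agent.N618.NP.EQD

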